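import Pool.Agent.Helper68.QS.St1

/-! # Project QD: module CGR -/

set_option autoImplicit false

open MeasureTheory Set Filter Topology Complex
open scoped ContDiff ComplexConjugate ENNReal

namespace Pool.Agent.Helper22.QS

open Pool.Agent.Helper68.QS Pool.Agent.Helper68.QC

theorem pCGR (hEX : Pool.Agent.Helper68.QC.StEX) (hUNI : Pool.Agent.Helper68.QC.StUNI) :
    Pool.Agent.Helper68.QS.StCGR := by
  constructor
  · intro k hk μ μ' h h' hae
    have h1 := hEX k hk μ' h'
    symm
    apply hUNI k hk μ h (nq μ') h1.zero h1.one ∅ Set.finite_empty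
    obtain ⟨a, b, h2, h3⟩ := h1.sol
    rw [compl_empty]
    refine ⟨a, b, h2, ?_⟩
    filter_upwards [h3, ae_restrict_of_ae hae] with z h4 h5
    rw [h4, h5]
  · intro μ h z
    have h0 : ∀ z, μ z = 0 := fun z => norm_le_zero_iff.1 (h.le z)
    have h1 : Homeomorph.refl ℂ = nq μ := by
      apply hUNI 0 one_pos μ h (Homeomorph.refl ℂ) rfl rfl ∅ Set.finite_empty
      rw [compl_empty]
      have h2 : WD univ (fun z : ℂ => z) (Pool.Agent.Helper68.QC.dz fun z : ℂ => z)
          (Pool.Agent.Helper68.QC.dzb fun z : ℂ => z) := wd_smooth contDiff_id univ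
      refine ⟨_, _, h2, Filter.Eventually.of_forall fun z => ?_⟩
      rw [h0, zero_mul]
      exact dzb_holo differentiableAt_id
    rw [← h1]
    rfl

end Pool.Agent.Helper22.QS
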